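import Pool.Agent.H7.TF.Targets

/-!
# MP_7a929c_al : module B11, normal forms in the free product
-/

set_option autoImplicit false

namespace Pool.Agent.H7.TF

open Equiv

section

variable {P : Type} [Group P]

/-- a reduced word as a Mathlib word -/
def toWord (X : List (Fin 3 × P)) (hX : Red X) : Monoid.CoprodI.Word (fun _ : Fin 3 => P) where
  toList := X.map fun x => ⟨x.1, x.2⟩
  ne_one := by
    intro l hl
    rw [List.mem_map] at hl
    obtain ⟨x, hx, rfl⟩ := hl
    exact hX.1 x hx
  chain_ne := by
    rw [List.isChain_map]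
    exact hX.2

theorem toWord_prod (X : List (Fin 3 × P)) (hX : Red X) : (toWord X hX).prod = ev X := by
  unfold Monoid.CoprodI.Word.prod toWord ev emb
  simp [List.map_map, Function.comp_def]

/-- a Mathlib word as a list of pairs -/
def ofWord (w : Monoid.CoprodI.Word (fun _ : Fin 3 => P)) : List (Fin 3 × P) :=
  w.toList.map fun x => (x.1, x.2)

theorem ofWord_red (w : Monoid.CoprodI.Word (fun _ : Fin 3 => P)) : Red (ofWord w) := by
  refine ⟨?_, ?_⟩
  · intro x hx
    unfold ofWord at hx
    rw [List.mem_map] at hx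
    obtain ⟨y, hy, rfl⟩ := hx
    exact w.ne_one y hy
  · unfold ofWord
    rw [List.isChain_map]
    exact w.chain_ne

theorem ev_ofWord (w : Monoid.CoprodI.Word (fun _ : Fin 3 => P)) : ev (ofWord w) = w.prod := by
  unfold Monoid.CoprodI.Word.prod ofWord ev emb
  simp [List.map_map, Function.comp_def]

open Classical in
theorem ev_inj {X Y : List (Fin 3 × P)} (hX : Red X) (hY : Red Y) (h : ev X = ev Y) : X = Y := by
  rw [← toWord_prod X hX, ← toWord_prod Y hY] at h
  have h2 : toWord X hX = toWord Y hY := by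
    have := Monoid.CoprodI.Word.equiv (M := fun _ : Fin 3 => P)
    exact Monoid.CoprodI.Word.equiv.symm.injective h
  have h3 : (toWord X hX).toList = (toWord Y hY).toList := by rw [h2]
  have h4 : Function.Injective (fun x : Fin 3 × P => (⟨x.1, x.2⟩ : Σ _ : Fin 3, P)) := by
    rintro ⟨a, b⟩ ⟨c, d⟩ hab
    simp only [Sigma.mk.injEq] at hab
    obtain ⟨h5, h6⟩ := hab
    subst h5
    rw [eq_of_heq h6]
  exact h4.list_map h3

theorem red_nil : Red ([] : List (Fin 3 × P)) := ⟨by simp, List.isChain_nil⟩

theorem ev_surj (w : FP P) : ∃ X, Red X ∧ ev X = w := by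
  classical
  refine ⟨ofWord (Monoid.CoprodI.Word.equiv w), ofWord_red _, ?_⟩
  rw [ev_ofWord]
  exact Monoid.CoprodI.Word.equiv.symm_apply_apply w

theorem ev_cons' (x : Fin 3 × P) (X : List (Fin 3 × P)) : ev (x :: X) = emb x.1 x.2 * ev X := by
  simp [ev]

theorem ev_append' (X Y : List (Fin 3 × P)) : ev (X ++ Y) = ev X * ev Y := by
  simp [ev]

theorem red_tail {x : Fin 3 × P} {X : List (Fin 3 × P)} (h : Red (x :: X)) : Red X :=
  ⟨fun y hy => h.1 y (List.mem_cons_of_mem _ hy), h.2.tail⟩

theorem strip_left (l : Fin 3) (X : List (Fin 3 × P)) (hX : Red X) :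
    ∃ (p : P) (Y : List (Fin 3 × P)), Red Y ∧ (∀ x, Y.head? = some x → x.1 ≠ l) ∧
      ev X = emb l p * ev Y := by
  cases X with
  | nil => exact ⟨1, [], red_nil, by simp, by simp [ev]⟩
  | cons x X =>
    by_cases hx : x.1 = l
    · refine ⟨x.2, X, red_tail hX, ?_, ?_⟩
      · intro y hy
        cases X with
        | nil => simp at hy
        | cons z X =>
          simp only [List.head?_cons, Option.some.injEq] at hy
          subst hy
          have := (List.isChain_cons_cons.1 hX.2).1
          rw [← hx]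
          exact this.symm
      · rw [ev_cons', hx]
    · refine ⟨1, x :: X, hX, ?_, by simp⟩
      intro y hy
      simp only [List.head?_cons, Option.some.injEq] at hy
      subst hy
      exact hx

theorem strip_right (l m : Fin 3) (X : List (Fin 3 × P)) (hX : Red X)
    (hl : ∀ x, X.head? = some x → x.1 ≠ l) :
    ∃ (q : P) (Y : List (Fin 3 × P)), Red Y ∧ (∀ x, Y.head? = some x → x.1 ≠ l) ∧
      (∀ x, Y.getLast? = some x → x.1 ≠ m) ∧ ev X = ev Y * emb m q := by
  rcases List.eq_nil_or_concat X with rfl | ⟨Y, y, rfl⟩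
  · exact ⟨1, [], red_nil, by simp, by simp, by simp [ev]⟩
  · rw [List.concat_eq_append] at *
    by_cases hy : y.1 = m
    · have hch := List.isChain_append.1 hX.2
      refine ⟨y.2, Y, ⟨fun z hz => hX.1 z (List.mem_append_left _ hz), hch.1⟩, ?_, ?_, ?_⟩
      · intro x hx
        apply hl x
        cases Y with
        | nil => simp at hx
        | cons z Y => simpa using hx
      · intro x hx
        have := hch.2.2 x hx y (by simp)
        rw [← hy]
        exact this
      · rw [ev_append', ← hy]
        congr 1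
    · refine ⟨1, Y ++ [y], hX, hl, ?_, by simp⟩
      intro x hx
      simp only [List.getLast?_append, List.getLast?_singleton, Option.some_or,
        Option.some.injEq] at hx
      subst hx
      exact hy

end

theorem b11 : T_B11 := by
  intro P _
  refine ⟨?_, ?_, ?_, ?_⟩
  · intro X hX h
    exact ev_inj hX red_nil (by simpa [ev] using h)
  · intro X Y hX hY h
    exact ev_inj hX hY h
  · exact ev_surj
  · intro l m w hlm
    obtain ⟨X, hX, rfl⟩ := ev_surj w
    obtain ⟨p, Y, hY, hYl, hXY⟩ := strip_left l X hX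
    obtain ⟨q, Z, hZ, hZl, hZm, hYZ⟩ := strip_right l m Y hY hYl
    refine ⟨p, q, Z, hZ, hZl, hZm, ?_⟩
    rw [hXY, hYZ, mul_assoc]

end Pool.Agent.H7.TF
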