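import Pool.Agent.H7.TF.Targets
import Pool.Agent.H7.TF.Basic

/-!
# MP_7a929c_al : module B8, van Kampen's lemma
-/

set_option autoImplicit false

namespace Pool.Agent.H7.TF

open Equiv

section

variable {P : Type} [Group P]

/-- elements of the free product which are boundary values of pictures -/
def bdSet (R : List (Rel P)) : Set (FP P) := {w | ∃ X, Bd R X ∧ ev X = w}

theorem bdSet_one (hB6 : T_B6) {R : List (Rel P)} (hF : Fold R) : (1 : FP P) ∈ bdSet R :=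
  ⟨_, (hB6 P R hF).2 0 1, by simp⟩

theorem bdSet_mul (hB5 : T_B5) {R : List (Rel P)} {a b : FP P} (ha : a ∈ bdSet R)
    (hb : b ∈ bdSet R) : a * b ∈ bdSet R := by
  obtain ⟨X, hX, rfl⟩ := ha
  obtain ⟨Y, hY, rfl⟩ := hb
  exact ⟨_, hB5 P R X Y hX hY, by simp⟩

theorem bdSet_conj_emb (hB5 : T_B5) (hB6 : T_B6) (hB7 : T_B7) {R : List (Rel P)} (hF : Fold R)
    {a : FP P} (ha : a ∈ bdSet R) (i : Fin 3) (x : P) :
    emb i x * a * (emb i x)⁻¹ ∈ bdSet R := by
  obtain ⟨X, hX, rfl⟩ := ha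
  have h1 := hB5 P R _ _ ((hB6 P R hF).2 i x⁻¹) hX
  have h2 : [(i, x⁻¹), (i, (x⁻¹)⁻¹)] ++ X = [(i, x⁻¹)] ++ ((i, x) :: X) := by simp
  rw [h2] at h1
  exact ⟨_, (hB7 P R).1 _ _ h1, by simp [mul_assoc]⟩

theorem bdSet_conj (hB5 : T_B5) (hB6 : T_B6) (hB7 : T_B7) (hB11 : T_B11) {R : List (Rel P)}
    (hF : Fold R) {a : FP P} (ha : a ∈ bdSet R) (w : FP P) : w * a * w⁻¹ ∈ bdSet R := by
  obtain ⟨Y, -, rfl⟩ := (hB11 P).2.2.1 w
  induction Y with
  | nil => simpa using ha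
  | cons y Y ih =>
    have := bdSet_conj_emb hB5 hB6 hB7 hF ih y.1 y.2
    convert this using 1
    simp [mul_assoc]

/-- the elements `w` such that `w` and `w⁻¹` bound -/
def bdSub (hB5 : T_B5) (hB6 : T_B6) (R : List (Rel P)) (hF : Fold R) : Subgroup (FP P) where
  carrier := {w | w ∈ bdSet R ∧ w⁻¹ ∈ bdSet R}
  one_mem' := ⟨bdSet_one hB6 hF, by rw [inv_one]; exact bdSet_one hB6 hF⟩
  mul_mem' := by
    rintro a b ⟨ha, ha'⟩ ⟨hb, hb'⟩
    exact ⟨bdSet_mul hB5 ha hb, by rw [mul_inv_rev]; exact bdSet_mul hB5 hb' ha'⟩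
  inv_mem' := by
    rintro a ⟨ha, ha'⟩
    exact ⟨ha', by rw [inv_inv]; exact ha⟩

theorem NR_le_bdSub (hB5 : T_B5) (hB6 : T_B6) (hB7 : T_B7) (hB11 : T_B11) (R : List (Rel P))
    (hF : Fold R) : NR R ≤ bdSub hB5 hB6 R hF := by
  haveI : (bdSub hB5 hB6 R hF).Normal := by
    constructor
    rintro a ⟨ha, ha'⟩ w
    refine ⟨bdSet_conj hB5 hB6 hB7 hB11 hF ha w, ?_⟩
    have : (w * a * w⁻¹)⁻¹ = w * a⁻¹ * w⁻¹ := by group
    rw [this]
    exact bdSet_conj hB5 hB6 hB7 hB11 hF ha' w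
  apply Subgroup.normalClosure_le_normal
  rintro w ⟨r, hr, rfl⟩
  exact ⟨⟨_, ((hB6 P R hF).1 r hr).1, rfl⟩, ⟨_, ((hB6 P R hF).1 r hr).2, by simp⟩⟩

end

theorem b8 (hB5 : T_B5) (hB6 : T_B6) (hB7 : T_B7) (hB11 : T_B11) : T_B8 := by
  intro P _ R hF X hX hne hev
  have key : ∀ n : ℕ, ∀ Y : List (Fin 3 × P), Y.length = n → Bd R Y → ev Y = ev X → Bd R X := by
    intro n
    induction n using Nat.strong_induction_on with
    | _ n ih =>
    intro Y hn hY hYX
    by_cases hred : Red Y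
    · rw [← (hB11 P).2.1 Y X hred hX hYX]
      exact hY
    unfold Red at hred
    rw [not_and_or] at hred
    rcases hred with h1 | h1
    · push Not at h1
      obtain ⟨y, hy, hy1⟩ := h1
      obtain ⟨A, B, rfl⟩ := List.append_of_mem hy
      obtain ⟨i, x⟩ := y
      simp only at hy1
      subst hy1
      by_cases hAB : B ++ A = []
      · exfalso
        rw [List.append_eq_nil_iff] at hAB
        obtain ⟨rfl, rfl⟩ := hAB
        apply hne
        apply (hB11 P).1 X hX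
        rw [← hYX]; simp
      · have h2 : Bd R ((i, 1) :: (B ++ A)) := (hB7 P R).1 A ((i, 1) :: B) hY
        have h3 := (hB7 P R).2.1 i (B ++ A) hAB h2
        have h4 := (hB7 P R).1 B A h3
        refine ih (A ++ B).length ?_ (A ++ B) rfl h4 ?_
        · rw [← hn]; simp
        · rw [← hYX]; simp
    · rw [List.isChain_iff_forall_rel_of_append_cons_cons] at h1
      push Not at h1
      obtain ⟨a, b, A, B, hYe, hab⟩ := h1
      subst hYe
      obtain ⟨i, x⟩ := a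
      obtain ⟨j, y⟩ := b
      simp only at hab
      subst hab
      have h2 : Bd R ((i, x) :: (i, y) :: (B ++ A)) := (hB7 P R).1 A ((i, x) :: (i, y) :: B) hY
      have h3 : Bd R (((i, x * y) :: B) ++ A) := (hB7 P R).2.2 i x y (B ++ A) h2
      have h4 := (hB7 P R).1 _ _ h3
      refine ih (A ++ (i, x * y) :: B).length ?_ _ rfl h4 ?_
      · rw [← hn]; simp
      · rw [← hYX]; simp [mul_assoc]
  obtain ⟨⟨Y, hY, hYX⟩, -⟩ := NR_le_bdSub hB5 hB6 hB7 hB11 R hF hev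
  exact key _ Y rfl hY hYX

end Pool.Agent.H7.TF
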