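import Pool.Agent.H7.TF.Targets
import Pool.Agent.H7.TF.Basic

/-!
# MP_7a929c_al : module C12, trivial intersections
-/

set_option autoImplicit false

namespace Pool.Agent.H7.TF

open Equiv

section

variable {P : Type} [Group P]

theorem red_append' {X Y : List (Fin 3 × P)} (hX : Red X) (hY : Red Y)
    (h : ∀ x, X.getLast? = some x → ∀ y, Y.head? = some y → x.1 ≠ y.1) : Red (X ++ Y) := by
  refine ⟨?_, ?_⟩
  · intro z hz
    rcases List.mem_append.1 hz with hz | hz
    · exact hX.1 z hz
    · exact hY.1 z hz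
  · rw [List.isChain_append]
    exact ⟨hX.2, hY.2, h⟩

theorem red_singleton' (i : Fin 3) {x : P} (hx : x ≠ 1) : Red [(i, x)] := by
  refine ⟨?_, by simp⟩
  intro z hz
  rw [List.mem_singleton] at hz
  subst hz
  exact hx

theorem red_invW {X : List (Fin 3 × P)} (hX : Red X) : Red (invW X) := by
  unfold invW
  refine ⟨?_, ?_⟩
  · intro z hz
    rw [List.mem_reverse, List.mem_map] at hz
    obtain ⟨y, hy, rfl⟩ := hz
    exact inv_ne_one.2 (hX.1 y hy)
  · rw [List.isChain_reverse, List.isChain_map]
    refine hX.2.imp ?_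
    intro a b hab
    exact fun h => hab h.symm

theorem head_invW {X : List (Fin 3 × P)} {y : Fin 3 × P} (h : (invW X).head? = some y) :
    ∃ x, X.getLast? = some x ∧ x.1 = y.1 := by
  unfold invW at h
  rw [List.head?_reverse, List.getLast?_map] at h
  rw [Option.map_eq_some_iff] at h
  obtain ⟨x, hx, rfl⟩ := h
  exact ⟨x, hx, rfl⟩

theorem mem_invW {X : List (Fin 3 × P)} {y : Fin 3 × P} (h : y ∈ invW X) :
    ∃ x ∈ X, x.1 = y.1 ∧ y.2 = x.2⁻¹ := by
  unfold invW at h
  rw [List.mem_reverse, List.mem_map] at h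
  obtain ⟨x, hx, rfl⟩ := h
  exact ⟨x, hx, rfl, rfl⟩

/-- the word `u g v g⁻¹` -/
def wd (l m : Fin 3) (g : List (Fin 3 × P)) (u v : P) : List (Fin 3 × P) :=
  (l, u) :: (g ++ (m, v) :: invW g)

theorem wd_length (l m : Fin 3) (g : List (Fin 3 × P)) (u v : P) :
    (wd l m g u v).length = 2 + 2 * g.length := by
  simp [wd]; omega

theorem ev_wd (l m : Fin 3) (g : List (Fin 3 × P)) (u v : P) :
    ev (wd l m g u v) = emb l u * ev g * emb m v * (ev g)⁻¹ := by
  simp [wd, mul_assoc]

theorem red_wd {l m : Fin 3} {g : List (Fin 3 × P)} {u v : P} (hlm : l ≠ m) (hg : Red g)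
    (h1 : ∀ x, g.head? = some x → x.1 ≠ l) (h2 : ∀ x, g.getLast? = some x → x.1 ≠ m)
    (hu : u ≠ 1) (hv : v ≠ 1) : Red (wd l m g u v) := by
  have e : wd l m g u v = ([(l, u)] ++ g) ++ ([(m, v)] ++ invW g) := by simp [wd]
  rw [e]
  apply red_append'
  · apply red_append' (red_singleton' l hu) hg
    intro x hx y hy
    simp only [List.getLast?_singleton, Option.some.injEq] at hx
    subst hx
    exact (h1 y hy).symm
  · apply red_append' (red_singleton' m hv) (red_invW hg)
    intro x hx y hy
    simp only [List.getLast?_singleton, Option.some.injEq] at hx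
    subst hx
    obtain ⟨z, hz, hzy⟩ := head_invW hy
    rw [← hzy]
    exact (h2 z hz).symm
  · intro x hx y hy
    simp only [List.singleton_append, List.head?_cons, Option.some.injEq] at hy
    subst hy
    cases g with
    | nil =>
      simp only [List.append_nil, List.getLast?_singleton, Option.some.injEq] at hx
      subst hx
      exact hlm
    | cons a g =>
      apply h2 x
      simpa using hx

end

/-- the key estimate -/
theorem c12_key (hB9 : T_B9) {P : Type} [Group P] {R : List (Rel P)} {C : ℕ} (hQ : QB R C)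
    (hF : Fold R) {l m : Fin 3} {g : List (Fin 3 × P)} (hlm : l ≠ m) (hg : Red g)
    (h1 : ∀ x, g.head? = some x → x.1 ≠ l) (h2 : ∀ x, g.getLast? = some x → x.1 ≠ m)
    {u v : P} (hu : u ≠ 1) (hv : v ≠ 1)
    (hN : emb l u * ev g * emb m v * (ev g)⁻¹ ∈ NR R) :
    u ∈ prodsLE (Lets R g) (C * (2 + 2 * g.length) + (2 + 2 * g.length)) := by
  obtain ⟨D, _, _, σ, θ, h, ty, kind, d0, hp, ha, hred, hconn⟩ :=
    hB9 P R hF (wd l m g u v) (red_wd hlm hg h1 h2 hu hv) (by simp [wd])
      (by rw [ev_wd]; exact hN)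
  set b := 2 + 2 * g.length with hb
  have hlen : (wd l m g u v).length = b := wd_length l m g u v
  -- the first letter
  have hr0 := ha.rd 0 (by rw [hlen]; omega)
  simp only [pow_zero, Perm.coe_one, id_eq] at hr0
  have hr0' : (l, u) = (ty d0, lab σ h d0) := by
    have : (wd l m g u v)[0]? = some (l, u) := by simp [wd]
    rw [this] at hr0
    exact Option.some.inj hr0
  have hty0 : ty d0 = l := (congrArg Prod.fst hr0').symm
  have hlab0 : lab σ h d0 = u := (congrArg Prod.snd hr0').symm
  -- the period of the hole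
  have hper : Function.minimalPeriod (σ * θ) d0 = b := by
    apply minimalPeriod_eq (by omega)
    · rw [← hlen]; exact ha.per
    · intro i hi1 hi2; exact ha.mper i hi1 (by rw [hlen]; exact hi2)
  have hcyc : ∀ z, (σ * θ).SameCycle d0 z → ∃ i, i < b ∧ ((σ * θ) ^ i) d0 = z := by
    intro z hz
    obtain ⟨i, -, -, hi⟩ := hz.exists_pow_eq (σ * θ)
    refine ⟨i % b, Nat.mod_lt _ (by omega), ?_⟩
    rw [← hi, ← iterate_eq_pow, ← iterate_eq_pow, ← hper, Function.iterate_mod_minimalPeriod_eq]
  -- number of holes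
  have hholes : holes σ θ kind d0 ≤ b := by
    unfold holes
    have e : Nat.card {d // conn σ θ d0 d ∧ kind d = none} =
        Set.ncard {d | conn σ θ d0 d ∧ kind d = none} := rfl
    rw [e]
    have hsub : {d | conn σ θ d0 d ∧ kind d = none} ⊆
        (fun i : ℕ => ((σ * θ) ^ i) d0) '' (Finset.range b : Set ℕ) := by
      rintro z ⟨hz1, hz2⟩
      obtain ⟨i, hi1, hi2⟩ := hcyc z (ha.only z hz1 hz2)
      exact ⟨i, by simpa using hi1, hi2⟩
    calc Set.ncard {d | conn σ θ d0 d ∧ kind d = none}
        ≤ Set.ncard ((fun i : ℕ => ((σ * θ) ^ i) d0) '' (Finset.range b : Set ℕ)) :=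
          Set.ncard_le_ncard hsub (Set.toFinite _)
      _ ≤ Set.ncard (Finset.range b : Set ℕ) := Set.ncard_image_le (Set.toFinite _)
      _ = b := by rw [Set.ncard_coe_finset, Finset.card_range]
  have hbd : bdry σ θ kind d0 ≤ C * b :=
    (hQ D σ θ h ty kind hp hred d0).trans (Nat.mul_le_mul_left C hholes)
  -- the vertex of `d0`
  set n := Function.minimalPeriod σ d0 with hn
  have hnpos : 0 < n := minimalPeriod_pos σ d0
  have hinj : Function.Injective (fun i : Fin n => (σ ^ (i : ℕ)) d0) := by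
    intro i j hij
    simp only at hij
    rw [← iterate_eq_pow, ← iterate_eq_pow] at hij
    have := Function.iterate_injOn_Iio_minimalPeriod (f := (σ : D → D)) (x := d0)
      (Set.mem_Iio.2 i.2) (Set.mem_Iio.2 j.2) hij
    exact Fin.ext this
  have hcount : n ≤ C * b + b := by
    let A : Set D := {d | conn σ θ d0 d ∧ kind d ≠ none ∧ ∃ d', σ.SameCycle d d' ∧ kind d' = none}
    let B : Set D := {d | conn σ θ d0 d ∧ kind d = none}
    have hA : A.ncard ≤ C * b := hbd
    have hB : B.ncard ≤ b := hholes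
    have hrange : Set.range (fun i : Fin n => (σ ^ (i : ℕ)) d0) ⊆ A ∪ B := by
      rintro z ⟨i, rfl⟩
      by_cases hz : kind ((σ ^ (i : ℕ)) d0) = none
      · right; exact ⟨hconn _ _, hz⟩
      · left
        refine ⟨hconn _ _, hz, d0, ?_, ha.hole⟩
        exact Perm.SameCycle.symm ⟨(i : ℕ), by simp⟩
    have h3 : (Set.range (fun i : Fin n => (σ ^ (i : ℕ)) d0)).ncard = n := by
      rw [← Set.image_univ, Set.ncard_image_of_injective _ hinj, Set.ncard_univ]
      simp
    calc n = (Set.range (fun i : Fin n => (σ ^ (i : ℕ)) d0)).ncard := h3.symm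
      _ ≤ (A ∪ B).ncard := Set.ncard_le_ncard hrange (Set.toFinite _)
      _ ≤ A.ncard + B.ncard := Set.ncard_union_le A B
      _ ≤ C * b + b := Nat.add_le_add hA hB
  -- the product around the vertex
  have hprod : ((List.range (n - 1)).map (fun i => lab σ h ((σ ^ (i + 1)) d0))).prod * u = 1 := by
    have h3 := prod_lab σ h d0 n
    have h4 : (σ ^ n) d0 = d0 := pow_minimalPeriod σ d0
    rw [h4, inv_mul_cancel] at h3
    have h5 : List.range n = List.range (n - 1) ++ [n - 1] := by
      rw [← List.range_succ]; congr 1; omega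
    rw [h5, List.map_append, List.prod_append] at h3
    simp only [List.map_cons, List.map_nil, List.prod_cons, List.prod_nil, mul_one] at h3
    rw [Nat.sub_add_cancel hnpos, h4, hlab0] at h3
    exact h3
  have hu' : u = (((List.range (n - 1)).map (fun i => lab σ h ((σ ^ (i + 1)) d0))).prod)⁻¹ :=
    (inv_eq_of_mul_eq_one_right hprod).symm
  rw [List.prod_inv_reverse] at hu'
  refine ⟨_, ?_, ?_, hu'⟩
  · simp only [List.length_reverse, List.length_map, List.length_range]
    omega
  · intro x hx
    rw [List.mem_reverse, List.mem_map] at hx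
    obtain ⟨y, hy, rfl⟩ := hx
    apply Lets_inv
    rw [List.mem_map] at hy
    obtain ⟨i, hi, rfl⟩ := hy
    rw [List.mem_range] at hi
    set z := (σ ^ (i + 1)) d0 with hz
    have hzd : z ≠ d0 := by
      intro h3
      have h4 : Function.IsPeriodicPt σ (i + 1) d0 := by
        rw [Function.IsPeriodicPt, Function.IsFixedPt, iterate_eq_pow]
        exact h3
      have := h4.minimalPeriod_le (by omega)
      omega
    have hsz : σ.SameCycle d0 z := ⟨((i + 1 : ℕ) : ℤ), by rw [zpow_natCast]⟩
    have htz : ty z = l := by rw [← hp.ty_sameCycle hsz, hty0]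
    rcases hk : kind z with _ | ⟨j, s, k⟩
    · -- a hole corner
      obtain ⟨i', hi1, hi2⟩ := hcyc z (ha.only z (hconn _ _) hk)
      have hi0 : i' ≠ 0 := by
        rintro rfl
        apply hzd
        rw [← hi2]; simp
      have h3 := ha.rd i' (by rw [hlen]; exact hi1)
      rw [hi2, htz] at h3
      obtain ⟨i'', rfl⟩ := Nat.exists_eq_succ_of_ne_zero hi0
      have h4 : (l, lab σ h z) ∈ g ++ (m, v) :: invW g := by
        apply List.mem_of_getElem? (i := i'')
        simpa [wd] using h3
      rcases List.mem_append.1 h4 with h5 | h5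
      · exact Or.inr ⟨_, h5, Or.inl rfl⟩
      · rcases List.mem_cons.1 h5 with h6 | h6
        · exact absurd (congrArg Prod.fst h6) hlm
        · obtain ⟨x, hx1, -, hx2⟩ := mem_invW h6
          exact Or.inr ⟨x, hx1, Or.inr hx2⟩
    · obtain ⟨r, hr⟩ := hp.exists_rel hk
      have h3 := hp.letter hk hr
      have h4 : (ty z, if s then lab σ h z else (lab σ h z)⁻¹) ∈ r.word := List.mem_of_getElem? h3
      refine Or.inl ⟨r, List.mem_of_getElem? hr, _, h4, ?_⟩
      cases s <;> simp

theorem c12 (hB9 : T_B9) : T_C12 := by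
  intro P _ R C htor hQ hF l m g hlm hg h1 h2 u v hN
  have hfold := foldHom_of_mem hF hN
  simp only [map_mul, map_inv, foldHom_emb, foldHom_ev] at hfold
  by_cases hu : u = 1
  · refine ⟨hu, ?_⟩
    rw [hu, one_mul] at hfold
    have : v = (fold g)⁻¹ * (fold g * v * (fold g)⁻¹) * fold g := by group
    rw [this, hfold]; group
  by_cases hv : v = 1
  · refine ⟨?_, hv⟩
    rw [hv] at hfold
    simpa using hfold
  exfalso
  have hpow : ∀ k : ℕ, emb l (u ^ k) * ev g * emb m (v ^ k) * (ev g)⁻¹ ∈ NR R := by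
    intro k
    rw [← QuotientGroup.eq_one_iff] at hN ⊢
    simp only [map_pow, QuotientGroup.mk_mul, QuotientGroup.mk_inv, QuotientGroup.mk_pow] at hN ⊢
    generalize (QuotientGroup.mk (emb l u) : FP P ⧸ NR R) = a at hN ⊢
    generalize (QuotientGroup.mk (ev g) : FP P ⧸ NR R) = c at hN ⊢
    generalize (QuotientGroup.mk (emb m v) : FP P ⧸ NR R) = d at hN ⊢
    have h3 : a * (c * d * c⁻¹) = 1 := by rw [← hN]; group
    have h4 : c * d ^ k * c⁻¹ = (c * d * c⁻¹) ^ k := (conj_pow).symm
    have h5 : a = (c * d * c⁻¹)⁻¹ := eq_inv_of_mul_eq_one_left h3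
    calc a ^ k * c * d ^ k * c⁻¹ = a ^ k * (c * d ^ k * c⁻¹) := by group
      _ = 1 := by rw [h4, h5, inv_pow, inv_mul_cancel]
  have hinj : Function.Injective (fun k : ℕ => u ^ (k + 1)) := by
    intro i j hij
    simp only at hij
    by_contra hne
    wlog hlt : i < j generalizing i j with H
    · exact H hij.symm (Ne.symm hne) (by omega)
    have h3 : u ^ (j - i) = 1 := by
      have : u ^ (j + 1) = u ^ (i + 1) * u ^ (j - i) := by
        rw [← pow_add]; congr 1; omega
      rw [this] at hij
      exact (mul_eq_left.1 hij.symm)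
    exact htor u hu (j - i) (by omega) h3
  have hfin : (prodsLE (Lets R g) (C * (2 + 2 * g.length) + (2 + 2 * g.length))).Finite :=
    prodsLE_finite (Lets_finite R g) _
  have hsub : Set.range (fun k : ℕ => u ^ (k + 1)) ⊆
      prodsLE (Lets R g) (C * (2 + 2 * g.length) + (2 + 2 * g.length)) := by
    rintro x ⟨k, rfl⟩
    exact c12_key hB9 hQ hF hlm hg h1 h2 (htor u hu (k + 1) (by omega))
      (htor v hv (k + 1) (by omega)) (hpow (k + 1))
  exact (Set.infinite_range_of_injective hinj) (hfin.subset hsub)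

end Pool.Agent.H7.TF
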