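import Pool.Agent.H7.TF.Targets
import Pool.Agent.H7.TF.Basic

set_option autoImplicit false

namespace Pool.Agent.H7.TF

/-- DB. protecting the value of one word on `t ^ n` -/
theorem db (hC11 : T_C11) (hD3 : T_D3) : T_DB := by
  intro P _ τ t hP R C W hSt v hv k hk
  obtain ⟨B, hB⟩ := hD3 P τ t hP.deg_t v hv
  obtain ⟨n0, hn0⟩ := hC11 P τ R C hSt.hQ hSt.hF B
  have hn : 0 < k * (n0 + 1) := Nat.mul_pos hk (Nat.succ_pos _)
  obtain ⟨X, h1, h2, h3, h4, h5⟩ := hB (k * (n0 + 1)) hn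
  have hle : n0 ≤ k * (n0 + 1) := by nlinarith
  refine ⟨k * (n0 + 1), X, Dvd.intro _ rfl, hn, h5, hSt.hQ, hSt.hF, ?_⟩
  intro Y hY
  rcases List.mem_cons.1 hY with rfl | hY
  · exact ⟨h1, h2, hn0 Y h1 h2 h3 (fun x hx => hle.trans (h4 x hx))⟩
  · exact hSt.prot Y hY

end Pool.Agent.H7.TF
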